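import Pool.Agent.Helper37.SN.Stmts

set_option autoImplicit false

/-!
SN, module COR: the correction of the spike at one cluster of nodes.
-/

namespace Pool.Agent.Helper37.SN

open MeasureTheory Finset
open scoped ENNReal Classical

theorem st_COR (hPTW : ST_PTW) (hCCO : ST_CCO) : ST_COR := by
  intro r p q hp hp2 hq hr
  obtain ⟨C, hC, hcco⟩ := hCCO r p q hp hp2 hq hr
  refine ⟨C, hC, ?_⟩
  intro e n ρ s₀ j sp sm G y x hρ hs hsn hG hGn hsp hspn hsm hB
  refine ⟨fun z : TT (e + 2) => hcor (2 * kk r + 1) n ρ s₀ sp sm G (2 ^ s₀ * rep (x.1 - y.1))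
    (2 ^ (n - s₀) * rep (x.2 - y.2)) x (pr z), ?_, ?_⟩
  · exact hcco e n ρ s₀ j sp sm G _ _ x hρ (by omega) hG hGn hsp hspn hsm
  · intro z
    exact hPTW (2 * kk r + 1) n ρ s₀ sp sm G y x hρ hs hsn hG hGn (by omega) hspn (by omega) hB
      (pr z)

end Pool.Agent.Helper37.SN
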