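import Pool.Agent.Helper37.SN.Stmts

set_option autoImplicit false

/-!
SN, module INTV: the shapes for which a point is close form an interval.
-/

namespace Pool.Agent.Helper37.SN

open MeasureTheory Finset
open scoped ENNReal Classical

private theorem intv_aux (v : ℝ) (hv : v ≤ 1) (N : ℕ) : ∃ i1 : ℤ, ∀ i : ℤ, 0 ≤ i → i ≤ N →
    (v ≤ (2 : ℝ) ^ (-i) ↔ i ≤ i1) := by
  have h0 : v ≤ (2 : ℝ) ^ (-((0 : ℕ) : ℤ)) := by simpa using hv
  refine ⟨((Nat.findGreatest (fun i : ℕ => v ≤ (2 : ℝ) ^ (-(i : ℤ))) N : ℕ) : ℤ), ?_⟩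
  intro i hi0 hiN
  obtain ⟨k, rfl⟩ := Int.eq_ofNat_of_zero_le hi0
  have hk : k ≤ N := by omega
  constructor
  · intro h
    have h1 : k ≤ Nat.findGreatest (fun i : ℕ => v ≤ (2 : ℝ) ^ (-(i : ℤ))) N :=
      Nat.le_findGreatest hk h
    exact_mod_cast h1
  · intro h
    have h1 : v ≤ (2 : ℝ) ^
        (-((Nat.findGreatest (fun i : ℕ => v ≤ (2 : ℝ) ^ (-(i : ℤ))) N : ℕ) : ℤ)) :=
      Nat.findGreatest_spec (P := fun i : ℕ => v ≤ (2 : ℝ) ^ (-(i : ℤ))) (Nat.zero_le N) h0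
    refine le_trans h1 ?_
    apply zpow_le_zpow_right₀ (by norm_num)
    omega

theorem st_INTV : ST_INTV := by
  intro n P x z
  have hn : ∀ t : UnitAddCircle, ‖t‖ ≤ 1 := by
    intro t
    have h := AddCircle.norm_le_half_period (1 : ℝ) (x := t) one_ne_zero
    rw [abs_one] at h
    linarith
  obtain ⟨i1, h1⟩ := intv_aux ‖z.1 - x.1‖ (hn _) (n + P)
  obtain ⟨i2, h2⟩ := intv_aux ‖z.2 - x.2‖ (hn _) (n + P)
  refine ⟨n - i2, i1, ?_⟩
  intro s ρ hs h0 hP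
  unfold Bx
  rw [h1 ((s : ℤ) + ρ) (by omega) (by push_cast; omega),
    h2 ((n : ℤ) - s + ρ) (by omega) (by push_cast; omega)]
  constructor
  · rintro ⟨h3, h4⟩
    constructor <;> omega
  · rintro ⟨h3, h4⟩
    constructor <;> omega

end Pool.Agent.Helper37.SN
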