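import Pool.Agent.Helper37.SN.Stmts

set_option autoImplicit false

/-!
SN, module PIG: pigeonhole over the scales.
-/

namespace Pool.Agent.Helper37.SN

open MeasureTheory Finset
open scoped ENNReal Classical

/-- the scales -/
private noncomputable def pigR (ρ₀ : ℕ) (Λ : ℕ → ℕ) : ℕ → ℕ
  | 0 => max ρ₀ 1
  | t + 1 => max (pigR ρ₀ Λ t + 1) (Λ (pigR ρ₀ Λ t) + 2)

private theorem pigR_mono (ρ₀ : ℕ) (Λ : ℕ → ℕ) : Monotone (pigR ρ₀ Λ) := by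
  apply monotone_nat_of_le_succ
  intro t
  simp only [pigR]
  exact le_trans (Nat.le_succ _) (le_max_left _ _)

private theorem pigR_pos (ρ₀ : ℕ) (Λ : ℕ → ℕ) (t : ℕ) : 1 ≤ pigR ρ₀ Λ t ∧ ρ₀ ≤ pigR ρ₀ Λ t := by
  have h := pigR_mono ρ₀ Λ (Nat.zero_le t)
  simp only [pigR] at h
  exact ⟨le_trans (le_max_right _ _) h, le_trans (le_max_left _ _) h⟩

private theorem pigR_gap (ρ₀ : ℕ) (Λ : ℕ → ℕ) {t t' : ℕ} (h : t < t') :
    Λ (pigR ρ₀ Λ t) + 2 ≤ pigR ρ₀ Λ t' := by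
  have h1 := pigR_mono ρ₀ Λ (Nat.succ_le_of_lt h)
  refine le_trans ?_ h1
  simp only [pigR]
  exact le_max_right _ _

private theorem pig_fix (ρ₀ : ℕ) (Λ : ℕ → ℕ) (B n I m : ℕ) (a b : Fin m → ℤ) :
    ∑ t ∈ range I, (Med a b n B (pigR ρ₀ Λ t) (Λ (pigR ρ₀ Λ t))).card ≤ B * (n + 1) := by
  have h1 : ∀ t, (Med a b n B (pigR ρ₀ Λ t) (Λ (pigR ρ₀ Λ t))).card = ∑ s ∈ LL a b n B,
      if (∃ z ∈ NN a b 0 s, 2 * (((pigR ρ₀ Λ t : ℕ) : ℤ) - 1) ≤ b z - a z ∧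
        b z - a z < ((Λ (pigR ρ₀ Λ t) : ℕ) : ℤ)) then 1 else 0 := by
    intro t
    rw [← Finset.card_filter]
    rfl
  rw [Finset.sum_congr rfl (fun t _ => h1 t), Finset.sum_comm]
  have h2 : ∀ s ∈ LL a b n B, (∑ t ∈ range I,
      if (∃ z ∈ NN a b 0 s, 2 * (((pigR ρ₀ Λ t : ℕ) : ℤ) - 1) ≤ b z - a z ∧
        b z - a z < ((Λ (pigR ρ₀ Λ t) : ℕ) : ℤ)) then 1 else 0) ≤ B := by
    intro s hs
    rw [← Finset.card_filter]
    have h3 : (NN a b 0 s).card ≤ B := (Finset.mem_filter.mp hs).2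
    refine le_trans ?_ h3
    apply Finset.card_le_card_of_forall_subsingleton (fun (t : ℕ) (z : Fin m) =>
      2 * (((pigR ρ₀ Λ t : ℕ) : ℤ) - 1) ≤ b z - a z ∧ b z - a z < ((Λ (pigR ρ₀ Λ t) : ℕ) : ℤ))
    · intro t ht
      obtain ⟨z, hz, hz2⟩ := (Finset.mem_filter.mp ht).2
      exact ⟨z, hz, hz2⟩
    · intro z _ t ht t' ht'
      obtain ⟨_, h4, h5⟩ := ht
      obtain ⟨_, h6, h7⟩ := ht'
      rcases lt_trichotomy t t' with h | h | h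
      · exfalso
        have h8 := pigR_gap ρ₀ Λ h
        omega
      · exact h
      · exfalso
        have h8 := pigR_gap ρ₀ Λ h
        omega
  refine le_trans (Finset.sum_le_sum h2) ?_
  rw [Finset.sum_const, smul_eq_mul, mul_comm]
  apply Nat.mul_le_mul_left
  refine le_trans (Finset.card_filter_le _ _) ?_
  rw [Int.card_Icc]
  omega

theorem st_PIG (hONE : ST_ONE) : ST_PIG := by
  intro ε B ρ₀ j w hε
  obtain ⟨D, hD, hone⟩ := hONE (ε / 2) (by linarith)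
  have hch : ∀ ρ : ℕ, ∃ Λ n₀ : ℕ, 1 ≤ ρ → ∀ n : ℕ, n₀ ≤ n → ∀ (m : ℕ) (a b : Fin m → ℤ),
      (((LL a b n B).filter (fun s => ¬ GoodAt a b n (j ρ) (w ρ) ρ s)).card : ℝ) ≤
        D * ((Med a b n B ρ Λ).card : ℝ) + ε / 2 * (n + 1) := by
    intro ρ
    by_cases h : 1 ≤ ρ
    · obtain ⟨Λ, n₀, h1⟩ := hone B (j ρ) (w ρ) ρ h
      exact ⟨Λ, n₀, fun _ => h1⟩
    · exact ⟨0, 0, fun h1 => absurd h1 h⟩
  choose Λ nf hΛ using hch
  obtain ⟨I0, hI0⟩ := exists_nat_gt (D * B / (ε / 2))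
  set I := I0 + 1 with hI
  have hIpos : (0 : ℝ) < I := by rw [hI]; positivity
  have hIle : D * B / I ≤ ε / 2 := by
    rw [div_le_iff₀ hIpos]
    have h1 : D * B / (ε / 2) ≤ (I : ℝ) := by
      rw [hI]
      push_cast
      linarith
    rw [div_le_iff₀ (by linarith)] at h1
    linarith
  refine ⟨pigR ρ₀ Λ I, (range I).sup (fun t => nf (pigR ρ₀ Λ t)), ?_⟩
  intro n hn m a b
  have h1 : ∑ t ∈ range I, ∑ i, (Med (a i) (b i) n B (pigR ρ₀ Λ t) (Λ (pigR ρ₀ Λ t))).card ≤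
      m * (B * (n + 1)) := by
    rw [Finset.sum_comm]
    refine le_trans (Finset.sum_le_sum (fun i _ => pig_fix ρ₀ Λ B n I m (a i) (b i))) ?_
    rw [Finset.sum_const, smul_eq_mul, Finset.card_univ, Fintype.card_fin]
  obtain ⟨t, ht, ht2⟩ : ∃ t ∈ range I,
      I * ∑ i, (Med (a i) (b i) n B (pigR ρ₀ Λ t) (Λ (pigR ρ₀ Λ t))).card ≤ m * (B * (n + 1)) := by
    by_contra hcon
    push Not at hcon
    have h2 : ∑ t ∈ range I, (m * (B * (n + 1))) < ∑ t ∈ range I,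
        I * ∑ i, (Med (a i) (b i) n B (pigR ρ₀ Λ t) (Λ (pigR ρ₀ Λ t))).card :=
      Finset.sum_lt_sum_of_nonempty ⟨0, Finset.mem_range.mpr (by omega)⟩ hcon
    rw [Finset.sum_const, smul_eq_mul, Finset.card_range, ← Finset.mul_sum (range I) _ I] at h2
    exact absurd (Nat.mul_le_mul_left I h1) (not_le.mpr h2)
  have hρ := pigR_pos ρ₀ Λ t
  refine ⟨pigR ρ₀ Λ t, hρ.2, pigR_mono ρ₀ Λ (Finset.mem_range.mp ht).le, ?_⟩
  have hnt : nf (pigR ρ₀ Λ t) ≤ n :=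
    le_trans (Finset.le_sup (f := fun t => nf (pigR ρ₀ Λ t)) ht) hn
  have h4 : ∀ i : Fin m, (((LL (a i) (b i) n B).filter (fun s => ¬ GoodAt (a i) (b i) n
      (j (pigR ρ₀ Λ t)) (w (pigR ρ₀ Λ t)) (pigR ρ₀ Λ t) s)).card : ℝ) ≤
      D * ((Med (a i) (b i) n B (pigR ρ₀ Λ t) (Λ (pigR ρ₀ Λ t))).card : ℝ) + ε / 2 * (n + 1) :=
    fun i => hΛ (pigR ρ₀ Λ t) hρ.1 n hnt m (a i) (b i)
  refine le_trans (Finset.sum_le_sum (fun i _ => h4 i)) ?_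
  rw [Finset.sum_add_distrib, ← Finset.mul_sum, Finset.sum_const, nsmul_eq_mul, Finset.card_univ,
    Fintype.card_fin]
  have h5 : (I : ℝ) * ∑ i, ((Med (a i) (b i) n B (pigR ρ₀ Λ t) (Λ (pigR ρ₀ Λ t))).card : ℝ) ≤
      m * (B * (n + 1)) := by
    exact_mod_cast ht2
  have h6 : ∑ i, ((Med (a i) (b i) n B (pigR ρ₀ Λ t) (Λ (pigR ρ₀ Λ t))).card : ℝ) ≤
      m * (B * (n + 1)) / I := by
    rw [le_div_iff₀ hIpos]
    linarith
  have h7 : D * ∑ i, ((Med (a i) (b i) n B (pigR ρ₀ Λ t) (Λ (pigR ρ₀ Λ t))).card : ℝ) ≤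
      ε / 2 * (m * (n + 1)) := by
    refine le_trans (mul_le_mul_of_nonneg_left h6 hD.le) ?_
    have h8 : D * (m * (B * ((n : ℝ) + 1)) / I) = (D * B / I) * (m * (n + 1)) := by
      field_simp
    rw [h8]
    exact mul_le_mul_of_nonneg_right hIle (by positivity)
  linarith

end Pool.Agent.Helper37.SN
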