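import Pool.Agent.Helper37.SN.Stmts

set_option autoImplicit false

/-!
SN, module TWO: existence of the combinatorial data.
-/

namespace Pool.Agent.Helper37.SN

open MeasureTheory Finset
open scoped ENNReal Classical

theorem st_TWO (hPIG : ST_PIG) (hINTV : ST_INTV) (hSEL : ST_SEL) : ST_TWO := by
  intro K
  obtain ⟨B, ε, n₁, hε, hsel⟩ := hSEL K
  refine ⟨B, ?_⟩
  intro ρ₀ j w
  obtain ⟨P, n₂, hpig⟩ := hPIG ε B (max ρ₀ 1) j w hε
  refine ⟨max n₁ n₂, ?_⟩
  intro n hn m X hm
  have hab : ∀ i z : Fin m, ∃ c d : ℤ, ∀ (s : ℕ) (ρ : ℤ), s ≤ n → 0 ≤ ρ → ρ ≤ P →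
      (Bx n ρ s (X i) (X z) ↔ c + ρ ≤ (s : ℤ) ∧ (s : ℤ) ≤ d - ρ) :=
    fun i z => hINTV n P (X i) (X z)
  choose a b hab using hab
  have hnear : ∀ (i : Fin m) (r : ℤ) (s : ℕ), s ≤ n → 0 ≤ r → r ≤ P →
      near X n r (X i) s = NN (a i) (b i) r s := by
    intro i r s hs h0 hP
    unfold near NN
    apply Finset.filter_congr
    intro z _
    exact hab i z s r hs h0 hP
  obtain ⟨ρ, hρ0, hρP, hsum⟩ := hpig n (le_trans (le_max_right _ _) hn) m a b
  have hρ1 : 1 ≤ ρ := le_trans (le_max_right _ _) hρ0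
  refine ⟨ρ, le_trans (le_max_left _ _) hρ0, ?_⟩
  obtain ⟨y, s, hs3, hsn, hcard, hall⟩ := hsel n (le_trans (le_max_left _ _) hn) m X
    (fun i s => ¬ GoodAt (a i) (b i) n (j ρ) (w ρ) ρ (s : ℤ)) hm (by
      refine le_trans (Finset.sum_le_sum fun i _ => ?_) hsum
      rw [Nat.cast_le]
      apply Finset.card_le_card_of_injOn (fun s : ℕ => (s : ℤ))
      · intro t ht
        have ht' : t ∈ range (n + 1) ∧ (near X n 0 (X i) t).card ≤ B ∧
            ¬ GoodAt (a i) (b i) n (j ρ) (w ρ) ρ (t : ℤ) := by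
          simpa only [Finset.coe_filter, Set.mem_ofPred_eq] using ht
        have htn : t ≤ n := Nat.lt_succ_iff.mp (Finset.mem_range.mp ht'.1)
        show (t : ℤ) ∈ _
        apply Finset.mem_coe.mpr
        refine Finset.mem_filter.mpr ⟨Finset.mem_filter.mpr ⟨?_, ?_⟩, ht'.2.2⟩
        · rw [Finset.mem_Icc]
          omega
        · rw [← hnear i 0 t htn le_rfl (by positivity)]
          exact ht'.2.1
      · intro x _ x' _ h
        exact Int.ofNat_inj.mp h)
  refine ⟨y, s, hs3, hsn, hcard, ?_⟩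
  intro i hi
  have hgood := not_not.mp (hall i hi).2
  obtain ⟨G, sp, sm, hw, hG, hsp, hspn, hsm0, hsm, heq⟩ := hgood
  refine ⟨G.image Int.toNat, sp.toNat, sm.toNat, ?_, ?_, ?_, ?_, ?_, ?_⟩
  · rw [Finset.card_image_of_injOn]
    · exact hw
    · intro x hx x' hx' h
      have h1 := (hG x hx).1
      have h2 := (hG x' hx').1
      have h : x.toNat = x'.toNat := h
      omega
  · intro t ht
    obtain ⟨x, hx, rfl⟩ := Finset.mem_image.mp ht
    have := (hG x hx).2
    omega
  · omega
  · omega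
  · omega
  · intro t ht
    have key : (t : ℤ) ∈ insert (s : ℤ) (insert sp (insert sm G)) ∧ t ≤ n := by
      rcases Finset.mem_insert.mp ht with h | h
      · rw [h]
        exact ⟨Finset.mem_insert_self _ _, by omega⟩
      rcases Finset.mem_insert.mp h with h | h
      · have h1 : (t : ℤ) = sp := by omega
        rw [h1]
        exact ⟨Finset.mem_insert_of_mem (Finset.mem_insert_self _ _), by omega⟩
      rcases Finset.mem_insert.mp h with h | h
      · have h1 : (t : ℤ) = sm := by omega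
        rw [h1]
        exact ⟨Finset.mem_insert_of_mem (Finset.mem_insert_of_mem (Finset.mem_insert_self _ _)),
          by omega⟩
      · obtain ⟨x, hx, hxt⟩ := Finset.mem_image.mp h
        have h2 := hG x hx
        have h1 : (t : ℤ) = x := by omega
        rw [h1]
        exact ⟨Finset.mem_insert_of_mem (Finset.mem_insert_of_mem (Finset.mem_insert_of_mem hx)),
          by omega⟩
    have h1 := heq (t : ℤ) key.1
    rw [hnear i ((ρ : ℤ) - 1) t key.2 (by omega) (by omega),
      hnear i (ρ : ℤ) s (by omega) (by omega) (by omega),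
      hnear i (ρ : ℤ) t key.2 (by omega) (by omega)]
    exact h1

end Pool.Agent.Helper37.SN
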